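import Pool.Agent.H40.Wo3

universe u

open Pool.Agent.H40.Wo FirstOrder in
theorem Pool.Agent.Results.MP_f8e4dc_lc.TensorNotOrth.result :
    ∃ (L : FirstOrder.Language.{0, 0}) (T : L.Theory), T.IsComplete ∧
      ∀ (U : Type u) [L.Structure U] [FirstOrder.Language.Theory.Model U T], Infinite U ∧
        ∃ (p₀ p₁ q : Set (L.Formula (U ⊕ Unit))) (r : Set (L.Formula (U ⊕ (Unit ⊕ Unit)))),
          IsType L U p₀ ∧ IsType L U p₁ ∧ IsType L U q ∧
          Invariant L U ∅ p₀ ∧ Invariant L U ∅ p₁ ∧ Invariant L U ∅ q ∧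
          WeaklyOrth L U p₀ q ∧ WeaklyOrth L U p₁ q ∧ IsTensor L U ∅ p₀ p₁ r ∧
          ¬ WeaklyOrth L U r q :=
  Pool.Agent.H40.Wo.counter
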